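import Pool.Agent.Helper79.GT.St4

/-!
# Project GT, module SM4 (one step of the simulation)
-/

set_option autoImplicit false

namespace Pool.Agent.Helper34.GT

open Pool.Agent.Helper79.GT Pool.Agent.Helper79.GS Pool.Agent.Helper73.DC Finset
open scoped Classical

private theorem sm4_mv (d : Mv) (p : ℕ) : mvC (cM d) p = mvN d p := by
  cases d <;> simp [mvC, cM, mvN]

private theorem sm4_upd (M : OTM (Fin 5)) (S h : ℕ) (hh : h < S) (f : ℕ → M.Γ) (g : M.Γ) :
    (∑ j ∈ range S, cG M (f j) * nG M ^ j) - cG M (f h) * nG M ^ h + cG M g * nG M ^ h =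
      ∑ j ∈ range S, cG M (Function.update f h g j) * nG M ^ j := by
  have hm : h ∈ range S := mem_range.2 hh
  rw [← Finset.add_sum_erase (range S) (fun j => cG M (f j) * nG M ^ j) hm,
    ← Finset.add_sum_erase (range S) (fun j => cG M (Function.update f h g j) * nG M ^ j) hm]
  have e : ∑ j ∈ (range S).erase h, cG M (Function.update f h g j) * nG M ^ j =
      ∑ j ∈ (range S).erase h, cG M (f j) * nG M ^ j := by
    refine Finset.sum_congr rfl fun j hj => ?_
    rw [Function.update_of_ne (Finset.ne_of_mem_erase hj)]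
  rw [e]
  simp only [Function.update_self]
  omega

theorem hSM4 (hSM2 : StSM2) (hSM3 : StSM3) : Pool.Agent.Helper79.GT.StSM4 := by
  intro M x N β S h1 h2 h3 c hc
  obtain ⟨hT, hK'⟩ := hSM3 M
  have hK := hK' x β S h1 h3 c hc
  obtain ⟨-, hD⟩ := hSM2 M β S x.length h1 h3
  obtain ⟨-, D0, D1, D2⟩ := hD c hc
  obtain ⟨hc1, hc2, hc3⟩ := hc
  set z := numC M β S c with hz
  set y : Ky M := (c.q, symAt x c.pos, fun t => c.tp t (c.hd t)) with hy
  constructor
  · intro hstep
    have hδ : M.δ c.q (symAt x c.pos) (fun t => c.tp t (c.hd t)) = none := by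
      unfold OTM.step at hstep
      cases hd : M.δ c.q (symAt x c.pos) (fun t => c.tp t (c.hd t)) with
      | none => rfl
      | some r => rw [hd] at hstep; simp at hstep
    have hH : tab M (fH M) (keyN M (lett x) β z) = 1 := by
      rw [hK, hT]
      unfold fH
      rw [if_pos hδ]
    refine ⟨hH, ?_⟩
    unfold stN
    rw [if_pos hH]
  · intro c' hstep _
    obtain ⟨q, d, f, hδ, hc'⟩ : ∃ q d f, M.δ c.q (symAt x c.pos) (fun t => c.tp t (c.hd t)) =
        some (q, d, f) ∧ c' =
        { q := q
          pos := min (mvN d c.pos) (x.length + 1)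
          hd := fun t => mvN (f t).2 (c.hd t)
          tp := fun t => Function.update (c.tp t) (c.hd t) (f t).1 } := by
      unfold OTM.step at hstep
      cases hd : M.δ c.q (symAt x c.pos) (fun t => c.tp t (c.hd t)) with
      | none => rw [hd] at hstep; simp at hstep
      | some r =>
        rw [hd] at hstep
        obtain ⟨q, d, f⟩ := r
        exact ⟨q, d, f, rfl, (Option.some.inj hstep).symm⟩
    have hH : tab M (fH M) (keyN M (lett x) β z) ≠ 1 := by
      rw [hK, hT]
      unfold fH
      rw [if_neg (by rw [hy]; simp only; rw [hδ]; simp)]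
      exact zero_ne_one
    refine ⟨hH, ?_⟩
    unfold stN
    rw [if_neg hH]
    unfold numC cfgN
    refine Finset.sum_congr rfl fun i hi => ?_
    rw [mem_range] at hi
    congr 1
    rw [hK]
    simp only [hT]
    by_cases i0 : i = 0
    · rw [if_pos i0, if_pos i0]
      unfold fQ
      rw [hy]
      simp only
      rw [hδ, hc']
    rw [if_neg i0, if_neg i0]
    by_cases i1 : i = 1
    · rw [if_pos i1, if_pos i1]
      unfold fM
      rw [hy]
      simp only
      rw [hδ, hc', D1]
      simp only
      rw [sm4_mv]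
    rw [if_neg i1, if_neg i1]
    by_cases i2 : i % 2 = 0
    · rw [if_pos i2, if_pos i2]
      obtain ⟨t, rfl⟩ : ∃ t, i = 2 + 2 * t := ⟨(i - 2) / 2, by omega⟩
      have ht : t < M.tapes := by omega
      have et : (2 + 2 * t - 2) / 2 = t := by omega
      rw [et, dif_pos ht]
      have hd := (D2 ⟨t, ht⟩).1
      simp only at hd
      rw [hd]
      unfold fD
      rw [hy]
      simp only
      rw [hδ, hc']
      simp only
      rw [dif_pos ht, sm4_mv]
    · rw [if_neg i2, if_neg i2]
      obtain ⟨t, rfl⟩ : ∃ t, i = 3 + 2 * t := ⟨(i - 3) / 2, by omega⟩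
      have ht : t < M.tapes := by omega
      have et : (3 + 2 * t - 3) / 2 = t := by omega
      have et1 : 3 + 2 * t - 1 = 2 + 2 * t := by omega
      rw [et, et1, dif_pos ht]
      obtain ⟨e1, e2, e3⟩ := D2 ⟨t, ht⟩
      simp only at e1 e2 e3
      rw [e1]
      unfold fW
      rw [hy]
      simp only
      rw [hδ, hc']
      simp only
      rw [dif_pos ht]
      unfold sdc
      rw [e3, e2]
      have hp : pw N (nG M) (c.hd ⟨t, ht⟩) = nG M ^ c.hd ⟨t, ht⟩ := by
        unfold pw
        apply min_eq_left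
        have hle : nG M ^ c.hd ⟨t, ht⟩ ≤ nG M ^ S :=
          Nat.pow_le_pow_right (by unfold nG; omega) (hc2 _).le
        omega
      rw [hp]
      exact sm4_upd M S (c.hd ⟨t, ht⟩) (hc2 _) (c.tp ⟨t, ht⟩) (f ⟨t, ht⟩).1

end Pool.Agent.Helper34.GT
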